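import Mathlib

/-!
A finite `p`-group acting faithfully and linearly over an algebraically closed field of
characteristic zero, such that all eigenspaces of its elements for eigenvalues `≠ 1` have
dimension at most one, is cyclic.
-/

set_option autoImplicit false

namespace Pool.Agent.W284.Lang

open Module
open scoped commutatorElement

set_option linter.unusedSectionVars false

variable {Ω V : Type*} [Field Ω] [IsAlgClosed Ω] [CharZero Ω] [AddCommGroup V] [Module Ω V]
  [FiniteDimensional Ω V]

/-- an endomorphism of finite order different from the identity has an eigenvalue `≠ 1` -/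
theorem exists_eig (T : End Ω V) {m : ℕ} (hm : 0 < m) (hT : T ^ m = 1) (h1 : T ≠ 1) :
    ∃ (ω : Ω) (w : V), ω ≠ 1 ∧ w ≠ 0 ∧ T w = ω • w := by
  classical
  obtain ⟨y, hy⟩ : ∃ y, T y ≠ y := by
    by_contra h
    push Not at h
    exact h1 (LinearMap.ext h)
  let W : Submodule Ω V := LinearMap.range (T - 1)
  have hW : ∀ x ∈ W, T x ∈ W := by
    rintro x ⟨z, rfl⟩
    exact ⟨T z, by simp⟩
  have hne : Nontrivial W := by
    refine ⟨⟨⟨T y - y, ⟨y, by simp⟩⟩, 0, ?_⟩⟩
    intro h
    exact hy (sub_eq_zero.mp (congrArg Subtype.val h))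
  obtain ⟨ω, hω⟩ := Module.End.exists_eigenvalue (T.restrict hW)
  obtain ⟨w, hw⟩ := hω.exists_hasEigenvector
  have hw0 : (w : V) ≠ 0 := fun h => hw.2 (Subtype.ext h)
  have hTw : T w = ω • (w : V) := by
    have := congrArg Subtype.val (End.mem_eigenspace_iff.mp hw.1)
    simpa using this
  refine ⟨ω, w, ?_, hw0, hTw⟩
  rintro rfl
  obtain ⟨z, hz⟩ := w.2
  rw [one_smul] at hTw
  have hz' : T z = z + w := by
    rw [← hz]; simp
  have hpow : ∀ k : ℕ, (T ^ k) z = z + (k : Ω) • (w : V) := by
    intro k
    induction k with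
    | zero => simp
    | succ k ih =>
      rw [pow_succ', Module.End.mul_apply, ih, map_add, map_smul, hTw, hz']
      push_cast
      rw [add_smul, one_smul]
      abel
  have := hpow m
  rw [hT, Module.End.one_apply] at this
  have h2 : (m : Ω) • (w : V) = 0 := by
    have h3 : z + (m : Ω) • (w : V) = z + 0 := by rw [← this, add_zero]
    exact add_left_cancel h3
  rcases smul_eq_zero.mp h2 with h | h
  · exact hm.ne' (by exact_mod_cast h)
  · exact hw0 h

section

variable {H : Type*} [Group H] [Finite H] (ρ : H →* End Ω V)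

omit [IsAlgClosed Ω] [CharZero Ω] [FiniteDimensional Ω V] [Finite H] in
theorem apply_inv (h : H) (x : V) : ρ h (ρ h⁻¹ x) = x := by
  rw [← Module.End.mul_apply, ← map_mul, mul_inv_cancel, map_one, Module.End.one_apply]

omit [IsAlgClosed Ω] [CharZero Ω] [FiniteDimensional Ω V] [Finite H] in
theorem comm_fix {w : V} (hw : ∀ h : H, ∃ c : Ω, ρ h w = c • w) {z : H}
    (hz : z ∈ commutator H) : ρ z w = w := by
  let S : Subgroup H :=
    { carrier := {h | ρ h w = w}
      one_mem' := by simp
      mul_mem' := by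
        intro a b ha hb
        simp only [Set.mem_ofPred_eq] at *
        rw [map_mul, Module.End.mul_apply, hb, ha]
      inv_mem' := by
        intro a ha
        simp only [Set.mem_ofPred_eq] at *
        have : ρ a⁻¹ (ρ a w) = w := by
          rw [← Module.End.mul_apply, ← map_mul, inv_mul_cancel, map_one, Module.End.one_apply]
        rwa [ha] at this }
  have hle : commutator H ≤ S := by
    rw [commutator_def, Subgroup.commutator_le]
    intro a _ b _
    show ρ ⁅a, b⁆ w = w
    obtain ⟨x, hx⟩ := hw a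
    obtain ⟨y, hy⟩ := hw b
    obtain ⟨c, hc⟩ := hw (b * a)⁻¹
    have h1 : ⁅a, b⁆ = (a * b) * (b * a)⁻¹ := by
      rw [commutatorElement_def]; group
    have h2 : ρ (a * b) w = ρ (b * a) w := by
      rw [map_mul, map_mul, Module.End.mul_apply, Module.End.mul_apply, hx, hy, map_smul,
        map_smul, hx, hy, smul_comm]
    rw [h1, map_mul, Module.End.mul_apply, hc, map_smul, h2, ← map_smul, ← hc]
    have h3 := apply_inv ρ (b * a) w
    exact h3
  exact hle hz

/-- In a finite `p`-group with the property that eigenspaces for eigenvalues `≠ 1` are at most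
one-dimensional, all elements commute. -/
theorem comm_of_simple {p : ℕ} [Fact p.Prime] (hH : IsPGroup p H) (hρ : Function.Injective ρ)
    (hs : ∀ (h : H) (ω : Ω) (u v : V), ω ≠ 1 → u ≠ 0 → ρ h u = ω • u → ρ h v = ω • v →
      ∃ c : Ω, v = c • u) : ∀ a b : H, a * b = b * a := by
  by_contra hab
  push Not at hab
  obtain ⟨a, b, hab⟩ := hab
  have hnil : Group.IsNilpotent H := hH.isNilpotent
  obtain ⟨z, hz1, hz2, hz3⟩ : ∃ z : H, z ≠ 1 ∧ z ∈ Subgroup.center H ∧ z ∈ commutator H := by
    have h1 : (⊤ : Subgroup H).lowerCentralSeries 1 ≠ ⊥ := by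
      intro h
      rw [Subgroup.top_lowerCentralSeries_one] at h
      have : ⁅a, b⁆ ∈ commutator H :=
        Subgroup.commutator_mem_commutator (Subgroup.mem_top a) (Subgroup.mem_top b)
      rw [h, Subgroup.mem_bot, commutatorElement_eq_one_iff_mul_comm] at this
      exact hab this
    obtain ⟨n, hn⟩ := Subgroup.nilpotent_iff_lowerCentralSeries.mp hnil
    classical
    let m := Nat.find (⟨n, hn⟩ : ∃ n, (⊤ : Subgroup H).lowerCentralSeries n = ⊥)
    have hm : (⊤ : Subgroup H).lowerCentralSeries m = ⊥ :=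
      Nat.find_spec (⟨n, hn⟩ : ∃ n, (⊤ : Subgroup H).lowerCentralSeries n = ⊥)
    have hm2 : 2 ≤ m := by
      by_contra h
      apply h1
      rw [eq_bot_iff, ← hm]
      exact Subgroup.lowerCentralSeries_antitone _ (by omega)
    obtain ⟨k, hk⟩ : ∃ k, m = k + 1 := ⟨m - 1, by omega⟩
    have hk2 : (⊤ : Subgroup H).lowerCentralSeries k ≠ ⊥ := by
      intro h
      have := Nat.find_min' (⟨n, hn⟩ : ∃ n, (⊤ : Subgroup H).lowerCentralSeries n = ⊥) h
      change m ≤ k at this
      omega
    obtain ⟨⟨z, hz⟩, hz0⟩ := (Subgroup.ne_bot_iff_exists_ne_one).mp hk2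
    have hz1 : z ≠ 1 := fun h => hz0 (Subtype.ext h)
    refine ⟨z, hz1, ?_, ?_⟩
    · rw [Subgroup.mem_center_iff]
      intro g
      have h2 : ⁅(z : H), g⁆ ∈ (⊤ : Subgroup H).lowerCentralSeries (k + 1) := by
        rw [Subgroup.lowerCentralSeries_succ]
        exact Subgroup.commutator_mem_commutator hz (Subgroup.mem_top g)
      rw [← hk, hm, Subgroup.mem_bot, commutatorElement_eq_one_iff_mul_comm] at h2
      exact h2.symm
    · rw [← Subgroup.top_lowerCentralSeries_one]
      exact Subgroup.lowerCentralSeries_antitone _ (by omega) hz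
  have hT : ρ z ≠ 1 := by
    intro h
    exact hz1 (hρ (by rw [h, map_one]))
  have hTm : ρ z ^ (Nat.card H) = 1 := by rw [← map_pow, pow_card_eq_one', map_one]
  obtain ⟨ω, w, hω, hw, hTw⟩ := exists_eig (ρ z) Nat.card_pos hTm hT
  have key : ∀ h : H, ∃ c : Ω, ρ h w = c • w := by
    intro h
    apply hs z ω w (ρ h w) hω hw hTw
    rw [← Module.End.mul_apply, ← map_mul, ← (Subgroup.mem_center_iff.mp hz2 h), map_mul,
      Module.End.mul_apply, hTw, map_smul]
  have := comm_fix ρ key hz3
  rw [this] at hTw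
  have h4 : (1 - ω) • w = 0 := by rw [sub_smul, one_smul, ← hTw, sub_self]
  rcases smul_eq_zero.mp h4 with h | h
  · exact hω (sub_eq_zero.mp h).symm
  · exact hw h

/-- A finite `p`-group acting faithfully such that all eigenspaces of its elements for
eigenvalues `≠ 1` are at most one-dimensional is cyclic. -/
theorem cyclic_of_simple {p : ℕ} [Fact p.Prime] (hH : IsPGroup p H) (hρ : Function.Injective ρ)
    (hs : ∀ (h : H) (ω : Ω) (u v : V), ω ≠ 1 → u ≠ 0 → ρ h u = ω • u → ρ h v = ω • v →
      ∃ c : Ω, v = c • u) : IsCyclic H := by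
  classical
  have hcomm := comm_of_simple ρ hH hρ hs
  rcases subsingleton_or_nontrivial H with hsub | hnt
  · infer_instance
  have hp : p.Prime := Fact.out
  -- an element of order p in any nontrivial subgroup
  have hord : ∀ x : H, x ≠ 1 → ∃ k : ℕ, (x ^ k) ≠ 1 ∧ (x ^ k) ^ p = 1 := by
    intro x hx
    obtain ⟨n, hn⟩ := hH x
    let m := Nat.find (⟨n, hn⟩ : ∃ n, x ^ p ^ n = 1)
    have hm : x ^ p ^ m = 1 := Nat.find_spec (⟨n, hn⟩ : ∃ n, x ^ p ^ n = 1)
    have hm0 : m ≠ 0 := by
      intro h
      rw [h, pow_zero, pow_one] at hm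
      exact hx hm
    obtain ⟨k, hk⟩ := Nat.exists_eq_succ_of_ne_zero hm0
    refine ⟨p ^ k, ?_, ?_⟩
    · intro h
      have := Nat.find_min' (⟨n, hn⟩ : ∃ n, x ^ p ^ n = 1) h
      change m ≤ k at this
      omega
    · rw [← pow_mul, ← pow_succ, ← Nat.succ_eq_add_one, ← hk, hm]
  -- eigenvectors of elements of order p are common eigenvectors
  have hcv : ∀ x : H, x ≠ 1 → x ^ p = 1 → ∃ (ω : Ω) (w : V), ω ≠ 1 ∧ ω ^ p = 1 ∧ w ≠ 0 ∧
      ρ x w = ω • w ∧ ∀ h : H, ∃ c : Ω, ρ h w = c • w := by
    intro x hx hxp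
    have hT : ρ x ≠ 1 := fun h => hx (hρ (by rw [h, map_one]))
    have hTm : ρ x ^ p = 1 := by rw [← map_pow, hxp, map_one]
    obtain ⟨ω, w, hω, hw, hTw⟩ := exists_eig (ρ x) hp.pos hTm hT
    refine ⟨ω, w, hω, ?_, hw, hTw, ?_⟩
    · have hk : ∀ k : ℕ, (ρ x ^ k) w = ω ^ k • w := by
        intro k
        induction k with
        | zero => simp
        | succ k ih => rw [pow_succ', Module.End.mul_apply, ih, map_smul, hTw, smul_smul, pow_succ]
      have h1 := hk p
      rw [hTm, Module.End.one_apply] at h1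
      have h2 : (1 - ω ^ p) • w = 0 := by rw [sub_smul, one_smul, ← h1, sub_self]
      rcases smul_eq_zero.mp h2 with h | h
      · exact (sub_eq_zero.mp h).symm
      · exact absurd h hw
    · intro h
      apply hs x ω w (ρ h w) hω hw hTw
      rw [← Module.End.mul_apply, ← map_mul, hcomm x h, map_mul, Module.End.mul_apply, hTw,
        map_smul]
  obtain ⟨x, hx⟩ := exists_ne (1 : H)
  obtain ⟨k, hk1, hk2⟩ := hord x hx
  obtain ⟨ω, w, hω, hωp, hw, hzw, hc⟩ := hcv _ hk1 hk2
  set z := x ^ k with hz
  choose ψ hψ using hc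
  have hinj : ∀ c d : Ω, c • w = d • w → c = d := by
    intro c d h
    have h2 : (c - d) • w = 0 := by rw [sub_smul, h, sub_self]
    rcases smul_eq_zero.mp h2 with h | h
    · exact sub_eq_zero.mp h
    · exact absurd h hw
  let χ : H →* Ω :=
    { toFun := ψ
      map_one' := hinj _ _ (by rw [← hψ, map_one, Module.End.one_apply, one_smul])
      map_mul' := fun a b => hinj _ _ (by
        rw [← hψ, map_mul, Module.End.mul_apply, hψ b, map_smul, hψ a, smul_smul, mul_comm]) }
  have hχinj : Function.Injective χ := by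
    have hker : ∀ y : H, ψ y = 1 → y = 1 := by
      intro y hy
      by_contra hy1
      obtain ⟨j, hj1, hj2⟩ := hord y hy1
      have hyw : ρ (y ^ j) w = w := by
        rw [hψ]
        have : ψ (y ^ j) = ψ y ^ j := map_pow χ y j
        rw [this, hy, one_pow, one_smul]
      set t := y ^ j with ht
      obtain ⟨ω', w', hω', hω'p, hw', htw', hc'⟩ := hcv t hj1 hj2
      -- ψ'(z) is a p-th root of unity
      obtain ⟨ξ, hξ⟩ := hc' z
      have hξk : ∀ k : ℕ, (ρ z ^ k) w' = ξ ^ k • w' := by
        intro k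
        induction k with
        | zero => simp
        | succ k ih => rw [pow_succ', Module.End.mul_apply, ih, map_smul, hξ, smul_smul, pow_succ]
      have hξp : ξ ^ p = 1 := by
        have h1 := hξk p
        rw [← map_pow, hk2, map_one, Module.End.one_apply] at h1
        have h2 : (1 - ξ ^ p) • w' = 0 := by rw [sub_smul, one_smul, ← h1, sub_self]
        rcases smul_eq_zero.mp h2 with h | h
        · exact (sub_eq_zero.mp h).symm
        · exact absurd h hw'
      have hprim : IsPrimitiveRoot ω' p := by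
        have h1 : orderOf ω' = p := orderOf_eq_prime hω'p hω'
        rw [← h1]
        exact IsPrimitiveRoot.orderOf ω'
      have hξ0 : ξ ≠ 0 := by
        rintro rfl
        rw [zero_pow hp.ne_zero] at hξp
        exact zero_ne_one hξp
      obtain ⟨i, -, hi⟩ := hprim.eq_pow_of_pow_eq_one (ξ := ω / ξ) (by
        rw [div_pow, hωp, hξp, div_one])
      have htk : ∀ k : ℕ, (ρ t ^ k) w' = ω' ^ k • w' := by
        intro k
        induction k with
        | zero => simp
        | succ k ih => rw [pow_succ', Module.End.mul_apply, ih, map_smul, htw', smul_smul, pow_succ]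
      have h5 : ρ (z * t ^ i) w' = ω • w' := by
        rw [map_mul, Module.End.mul_apply, map_pow ρ t, htk, map_smul, hξ, smul_smul, hi]
        congr 1
        field_simp
      have htkw : ∀ k : ℕ, (ρ t ^ k) w = w := by
        intro k
        induction k with
        | zero => simp
        | succ k ih => rw [pow_succ', Module.End.mul_apply, ih, hyw]
      have h6 : ρ (z * t ^ i) w = ω • w := by
        rw [map_mul, Module.End.mul_apply, map_pow ρ t, htkw, hzw]
      obtain ⟨c, hcw⟩ := hs (z * t ^ i) ω w w' hω hw h6 h5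
      have h7 : ρ t w' = w' := by
        rw [hcw, map_smul, hyw]
      rw [h7] at htw'
      have h2 : (1 - ω') • w' = 0 := by rw [sub_smul, one_smul, ← htw', sub_self]
      rcases smul_eq_zero.mp h2 with h | h
      · exact hω' (sub_eq_zero.mp h).symm
      · exact hw' h
    intro a b hab
    have h1 : ψ (a * b⁻¹) = 1 := by
      have e1 : ψ (a * b⁻¹) = χ a * χ b⁻¹ := map_mul χ a b⁻¹
      have e2 : χ b * χ b⁻¹ = 1 := by rw [← map_mul, mul_inv_cancel, map_one]
      rw [e1, hab, e2]
    exact mul_inv_eq_one.mp (hker _ h1)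
  letI : CommGroup H := { (inferInstance : Group H) with mul_comm := hcomm }
  exact isCyclic_of_subgroup_isDomain χ hχinj

end

end Pool.Agent.W284.Lang
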