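import Mathlib
import Pool.Agent.H159R3.Lang.Line
import Pool.Agent.W284.Lang.Group

/-!
Forms which are invariant under a non-cyclic `p`-group, `p` prime to their degrees, vanish on a
line.
-/

set_option autoImplicit false

namespace Pool.Agent.W284.Lang

open MvPolynomial Pool.Agent.H159R3.Lang

universe u v

variable {K : Type u} [Field K] {ι : Type v} {n : ℕ}

theorem minor_or_multiple {L : Type*} [Field L] (u v : Fin (n + 1) → L) (hu : u ≠ 0) :
    (∃ c : L, v = c • u) ∨ ∃ j k, u j * v k - u k * v j ≠ 0 := by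
  obtain ⟨j, hj⟩ := Function.ne_iff.mp hu
  rw [Pi.zero_apply] at hj
  by_cases h : v = (v j / u j) • u
  · exact Or.inl ⟨_, h⟩
  · obtain ⟨k, hk⟩ := Function.ne_iff.mp h
    refine Or.inr ⟨j, k, fun h0 => hk ?_⟩
    rw [Pi.smul_apply, smul_eq_mul]
    field_simp
    linear_combination h0

theorem pow_ne_one {Ω : Type*} [Field Ω] {p m d : ℕ} (hp : p.Prime) {ω : Ω} (h1 : ω ≠ 1)
    (hm : ω ^ p ^ m = 1) (hd : ¬ p ∣ d) : ω ^ d ≠ 1 := by
  intro h
  apply h1
  have hco : Nat.Coprime (p ^ m) d := Nat.Coprime.pow_left m ((Nat.Prime.coprime_iff_not_dvd hp).mpr hd)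
  have h2 : orderOf ω ∣ Nat.gcd (p ^ m) d :=
    Nat.dvd_gcd (orderOf_dvd_of_pow_eq_one hm) (orderOf_dvd_of_pow_eq_one h)
  rw [hco, Nat.dvd_one] at h2
  exact orderOf_eq_one_iff.mp h2

/-- the linear action on vectors -/
noncomputable def act {Ω : Type*} [Field Ω] {H : Type*} [Group H]
    (ρ : H →* GL (Fin (n + 1)) Ω) : H →* Module.End Ω (Fin (n + 1) → Ω) :=
  ((Matrix.toLinAlgEquiv' : Matrix (Fin (n + 1)) (Fin (n + 1)) Ω ≃ₐ[Ω] _) :
    Matrix (Fin (n + 1)) (Fin (n + 1)) Ω →* Module.End Ω (Fin (n + 1) → Ω)).comp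
    ((Units.coeHom _).comp ρ)

theorem act_apply {Ω : Type*} [Field Ω] {H : Type*} [Group H]
    (ρ : H →* GL (Fin (n + 1)) Ω) (h : H) (x : Fin (n + 1) → Ω) :
    act ρ h x = ((ρ h : GL (Fin (n + 1)) Ω) : Matrix (Fin (n + 1)) (Fin (n + 1)) Ω).mulVec x := rfl

theorem act_injective {Ω : Type*} [Field Ω] {H : Type*} [Group H]
    (ρ : H →* GL (Fin (n + 1)) Ω) (hρ : Function.Injective ρ) : Function.Injective (act ρ) := by
  intro a b hab
  apply hρ
  apply Units.ext
  exact (Matrix.toLinAlgEquiv' : Matrix (Fin (n + 1)) (Fin (n + 1)) Ω ≃ₐ[Ω] _).injective hab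

theorem line_of_group {Ω : Type*} [Field Ω] [IsAlgClosed Ω] [CharZero Ω] [Algebra K Ω]
    (F : ι → MvPolynomial (Fin (n + 1)) K) (d : ι → ℕ)
    (hF : ∀ i, (F i).IsHomogeneous (d i)) {p : ℕ} [Fact p.Prime] (hp : ∀ i, ¬ p ∣ d i)
    {H : Type*} [Group H] [Finite H] (hH : IsPGroup p H) (hcyc : ¬ IsCyclic H)
    (ρ : H →* GL (Fin (n + 1)) Ω) (hρ : Function.Injective ρ)
    (hinv : ∀ (h : H) (i : ι) (x : Fin (n + 1) → Ω),
      aeval ((ρ h : Matrix (Fin (n + 1)) (Fin (n + 1)) Ω).mulVec x) (F i) = aeval x (F i)) :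
    ∃ (a b : Fin (n + 1) → Ω) (j k : Fin (n + 1)), a j * b k - a k * b j ≠ 0 ∧ OnLine F a b := by
  by_contra hno
  apply hcyc
  apply cyclic_of_simple (act ρ) hH (act_injective ρ hρ)
  intro h ω u v hω hu hu1 hv1
  rcases minor_or_multiple u v hu with hc | ⟨j, k, hjk⟩
  · exact hc
  exfalso
  apply hno
  refine ⟨u, v, j, k, hjk, ?_⟩
  intro i s t
  have hx : act ρ h (s • u + t • v) = ω • (s • u + t • v) := by
    rw [map_add, map_smul, map_smul, hu1, hv1, smul_add, smul_comm s, smul_comm t]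
  have h1 := hinv h i (s • u + t • v)
  rw [← act_apply, hx, aeval_smul_homog (hF i)] at h1
  obtain ⟨m, hm⟩ := hH h
  have hωm : ω ^ p ^ m = 1 := by
    have hk : ∀ k : ℕ, (act ρ h ^ k) u = ω ^ k • u := by
      intro k
      induction k with
      | zero => simp
      | succ k ih => rw [pow_succ', Module.End.mul_apply, ih, map_smul, hu1, smul_smul, pow_succ]
    have h2 := hk (p ^ m)
    rw [← map_pow, hm, map_one, Module.End.one_apply] at h2
    have h3 : (1 - ω ^ p ^ m) • u = 0 := by rw [sub_smul, one_smul, ← h2, sub_self]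
    rcases smul_eq_zero.mp h3 with h | h
    · exact (sub_eq_zero.mp h).symm
    · exact absurd h hu
  have h4 := pow_ne_one (Fact.out : p.Prime) hω hωm (hp i)
  have h5 : (ω ^ d i - 1) * aeval (s • u + t • v) (F i) = 0 := by
    rw [sub_mul, one_mul, h1, sub_self]
  exact (mul_eq_zero.mp h5).resolve_left (sub_ne_zero.mpr h4)

end Pool.Agent.W284.Lang
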