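import Mathlib
import Pool.Agent.W284.Lang.Line

/-!
The projective version: a non-cyclic finite `p`-subgroup of `PGL` preserving the equations.
-/

set_option autoImplicit false

namespace Pool.Agent.W284.Lang

open MvPolynomial Pool.Agent.H159R3.Lang Matrix

universe u v

variable {K : Type u} [Field K] {ι : Type v} {n : ℕ}

theorem scalar_mulVec {Ω : Type*} [Field Ω] (g : GL (Fin (n + 1)) Ω) (u : Ωˣ)
    (x : Fin (n + 1) → Ω) :
    ((g * Matrix.GeneralLinearGroup.scalar (Fin (n + 1)) u : GL (Fin (n + 1)) Ω) :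
      Matrix (Fin (n + 1)) (Fin (n + 1)) Ω).mulVec x =
    (u : Ω) • (g : Matrix (Fin (n + 1)) (Fin (n + 1)) Ω).mulVec x := by
  rw [Units.val_mul, ← Matrix.mulVec_mulVec, Matrix.GeneralLinearGroup.coe_scalar]
  have : (Matrix.scalar (Fin (n + 1)) (u : Ω)).mulVec x = (u : Ω) • x := by
    rw [Matrix.scalar_apply]
    ext i
    simp [Matrix.mulVec_diagonal]
  rw [this, Matrix.mulVec_smul]

/-- the group of the linear maps over `P` leaving all forms invariant -/
def lifts {Ω : Type*} [Field Ω] [Algebra K Ω] (F : ι → MvPolynomial (Fin (n + 1)) K)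
    (P : Subgroup (Matrix.ProjGenLinGroup (Fin (n + 1)) Ω)) : Subgroup (GL (Fin (n + 1)) Ω) where
  carrier := {g | Matrix.ProjGenLinGroup.mk g ∈ P ∧ ∀ (i : ι) (x : Fin (n + 1) → Ω),
    aeval ((g : Matrix (Fin (n + 1)) (Fin (n + 1)) Ω).mulVec x) (F i) = aeval x (F i)}
  one_mem' := ⟨by rw [map_one]; exact P.one_mem, fun i x => by simp⟩
  mul_mem' := by
    rintro a b ⟨ha1, ha2⟩ ⟨hb1, hb2⟩
    refine ⟨by rw [map_mul]; exact P.mul_mem ha1 hb1, fun i x => ?_⟩
    rw [Units.val_mul, ← Matrix.mulVec_mulVec, ha2, hb2]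
  inv_mem' := by
    rintro a ⟨ha1, ha2⟩
    refine ⟨by rw [map_inv]; exact P.inv_mem ha1, fun i x => ?_⟩
    have := ha2 i (((a⁻¹ : GL (Fin (n + 1)) Ω) : Matrix (Fin (n + 1)) (Fin (n + 1)) Ω).mulVec x)
    rw [Matrix.mulVec_mulVec, ← Units.val_mul, mul_inv_cancel, Units.val_one,
      Matrix.one_mulVec] at this
    exact this.symm

theorem line_of_proj {Ω : Type*} [Field Ω] [IsAlgClosed Ω] [CharZero Ω] [Algebra K Ω]
    (F : ι → MvPolynomial (Fin (n + 1)) K) (d : ι → ℕ)
    (hF : ∀ i, (F i).IsHomogeneous (d i)) {p : ℕ} [Fact p.Prime] (hp : ∀ i, ¬ p ∣ d i)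
    (P : Subgroup (Matrix.ProjGenLinGroup (Fin (n + 1)) Ω)) [Finite P] (hP : IsPGroup p P)
    (hcyc : ¬ IsCyclic P)
    (hinv : ∀ g : GL (Fin (n + 1)) Ω, Matrix.ProjGenLinGroup.mk g ∈ P → ∃ c : Ω, ∀ i x,
      aeval ((g : Matrix (Fin (n + 1)) (Fin (n + 1)) Ω).mulVec x) (F i)
        = c ^ d i * aeval x (F i)) :
    ∃ (a b : Fin (n + 1) → Ω) (j k : Fin (n + 1)), a j * b k - a k * b j ≠ 0 ∧ OnLine F a b := by
  classical
  by_cases hF0 : ∀ i x, aeval (x : Fin (n + 1) → Ω) (F i) = 0
  · -- all forms vanish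
    rcases Nat.eq_zero_or_pos n with hn | hn
    · exfalso
      subst hn
      apply hcyc
      have hsub : Subsingleton P := by
        refine ⟨fun a b => Subtype.ext ?_⟩
        have h1 : ∀ g : Matrix.ProjGenLinGroup (Fin (0 + 1)) Ω, g = 1 := by
          intro g
          obtain ⟨g, rfl⟩ := Matrix.ProjGenLinGroup.mk_surjective g
          rw [Matrix.ProjGenLinGroup.mk_eq_one,
            Matrix.GeneralLinearGroup.mem_center_iff_val_mem_range_scalar]
          refine ⟨(g : Matrix (Fin (0 + 1)) (Fin (0 + 1)) Ω) 0 0, ?_⟩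
          ext i j
          have hi : i = 0 := Fin.ext (by have := i.2; simp)
          have hj : j = 0 := Fin.ext (by have := j.2; simp)
          subst hi; subst hj
          simp
        rw [h1 a, h1 b]
      infer_instance
    · let j : Fin (n + 1) := 0
      let k : Fin (n + 1) := Fin.last n
      have hjk : j ≠ k := by
        intro h
        have := congrArg Fin.val h
        simp [j, k] at this
        omega
      refine ⟨Pi.single j 1, Pi.single k 1, j, k, ?_, fun i s t => hF0 i _⟩
      simp [hjk, hjk.symm]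
  · push Not at hF0
    obtain ⟨i0, x0, hx0⟩ := hF0
    have hd0 : 0 < d i0 := Nat.pos_of_ne_zero (fun h => hp i0 (h ▸ dvd_zero p))
    let G1 := lifts (Ω := Ω) F P
    let f : G1 →* P := (Matrix.ProjGenLinGroup.mk.comp G1.subtype).codRestrict P
      (fun g => g.2.1)
    have hf : Function.Surjective f := by
      rintro ⟨b, hb⟩
      obtain ⟨g, rfl⟩ := Matrix.ProjGenLinGroup.mk_surjective b
      obtain ⟨c, hc⟩ := hinv g hb
      have hc0 : c ≠ 0 := by
        rintro rfl
        have := hc i0 (((g⁻¹ : GL (Fin (n + 1)) Ω) :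
          Matrix (Fin (n + 1)) (Fin (n + 1)) Ω).mulVec x0)
        rw [Matrix.mulVec_mulVec, ← Units.val_mul, mul_inv_cancel, Units.val_one,
          Matrix.one_mulVec, zero_pow hd0.ne', zero_mul] at this
        exact hx0 this
      let u : Ωˣ := Units.mk0 c⁻¹ (inv_ne_zero hc0)
      have hmk : Matrix.ProjGenLinGroup.mk
          (g * Matrix.GeneralLinearGroup.scalar (Fin (n + 1)) u) =
            Matrix.ProjGenLinGroup.mk g := by
        rw [map_mul, Matrix.ProjGenLinGroup.mk_scalar, mul_one]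
      refine ⟨⟨g * Matrix.GeneralLinearGroup.scalar (Fin (n + 1)) u, ?_, ?_⟩, ?_⟩
      · rw [hmk]; exact hb
      · intro i x
        rw [scalar_mulVec, aeval_smul_homog (hF i), hc, Units.val_mk0, inv_pow, ← mul_assoc,
          inv_mul_cancel₀ (pow_ne_zero _ hc0), one_mul]
      · exact Subtype.ext hmk
    have hfin : Finite G1 := by
      have hroots : {u : Ωˣ | u ^ d i0 = 1}.Finite := by
        have : NeZero (d i0) := ⟨hd0.ne'⟩
        have h1 : Finite (rootsOfUnity (d i0) Ω) := inferInstance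
        exact h1
      have hker : ∀ g : G1, f g = 1 → ∃ u : Ωˣ, u ^ d i0 = 1 ∧
          (g : GL (Fin (n + 1)) Ω) = Matrix.GeneralLinearGroup.scalar (Fin (n + 1)) u := by
        intro g hg
        have h1 : Matrix.ProjGenLinGroup.mk (g : GL (Fin (n + 1)) Ω) = 1 :=
          congrArg Subtype.val hg
        rw [Matrix.ProjGenLinGroup.mk_eq_one,
          Matrix.GeneralLinearGroup.center_eq_range_scalar] at h1
        obtain ⟨u, hu⟩ := h1
        refine ⟨u, ?_, hu.symm⟩
        have h2 := g.2.2 i0 x0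
        rw [← hu] at h2
        have h3 := scalar_mulVec (1 : GL (Fin (n + 1)) Ω) u x0
        rw [one_mul, Units.val_one, Matrix.one_mulVec] at h3
        rw [h3, aeval_smul_homog (hF i0)] at h2
        have h4 : ((u : Ω) ^ d i0 - 1) * aeval x0 (F i0) = 0 := by
          rw [sub_mul, one_mul, h2, sub_self]
        have h5 := (mul_eq_zero.mp h4).resolve_right hx0
        apply Units.ext
        rw [Units.val_pow_eq_pow_val, Units.val_one]
        exact sub_eq_zero.mp h5
      have hkf : Finite f.ker := by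
        have h1 : Finite {u : Ωˣ | u ^ d i0 = 1} := hroots
        choose φ hφ1 hφ2 using hker
        refine Finite.of_injective (fun g : f.ker =>
          (⟨φ g.1 g.2, hφ1 g.1 g.2⟩ : {u : Ωˣ | u ^ d i0 = 1})) ?_
        intro a b hab
        have h2 : φ a.1 a.2 = φ b.1 b.2 := congrArg Subtype.val hab
        apply Subtype.ext
        apply Subtype.ext
        rw [hφ2 a.1 a.2, hφ2 b.1 b.2, h2]
      have h6 : Finite (G1 ⧸ f.ker) :=
        Finite.of_equiv P (QuotientGroup.quotientKerEquivOfSurjective f hf).symm.toEquiv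
      exact Finite.of_equiv _ (Subgroup.groupEquivQuotientProdSubgroup (s := f.ker)).symm
    let S : Sylow p G1 := default
    have hsurj : Function.Surjective (f.comp (S : Subgroup G1).subtype) := by
      have h1 : ((S.mapSurjective hf : Sylow p P) : Subgroup P) = ⊤ := by
        have h2 := (S.mapSurjective hf).is_maximal' (Q := ⊤) (by
          intro g
          obtain ⟨k, hk⟩ := hP g.1
          exact ⟨k, Subtype.ext hk⟩) le_top
        exact h2.symm
      intro y
      have h3 : y ∈ (S : Subgroup G1).map f := by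
        rw [← Sylow.coe_mapSurjective hf S, h1]; trivial
      obtain ⟨s, hs, hsy⟩ := h3
      exact ⟨⟨s, hs⟩, hsy⟩
    have hScyc : ¬ IsCyclic S := by
      intro h
      exact hcyc (isCyclic_of_surjective (f.comp (S : Subgroup G1).subtype) hsurj)
    exact line_of_group F d hF hp (H := S) S.2 hScyc
      (G1.subtype.comp (S : Subgroup G1).subtype)
      (fun a b h => Subtype.ext (Subtype.ext h)) (fun h i x => h.1.2.2 i x)

end Pool.Agent.W284.Lang
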